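import Mathlib
import Pool.Agent.NH9.TwoF

set_option autoImplicit false

/-!
# At least 98.9 percent of the quadratic Dirichlet L-functions have at most two zeros in `(0,1)`

Zeros are counted with multiplicity. As the zeros are symmetric about `1/2`, such an L-function has
at most one zero in `[1/2,1)`, and this zero is simple if it is not `1/2`.
-/

namespace Pool.Agent.Results.MP_0016c7_nt.AtMostTwoZeros

/-- The pairs `(N, χ)` with `1 ≤ N ≤ X` and `χ` a nontrivial primitive quadratic Dirichlet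
character modulo `N` such that `χ(-1) = s` and `χ(p) = c p` for all `p ∈ S`. -/
def Class (S : Finset ℕ) (c : ℕ → ℤ) (s : ℤ) (X : ℕ) : Set (Σ N : ℕ, DirichletCharacter ℂ N) :=
  {p | p.1 ≠ 0 ∧ p.1 ≤ X ∧ p.2.IsPrimitive ∧ p.2 ^ 2 = 1 ∧ p.2 ≠ 1 ∧ p.2 (-1) = (s : ℂ) ∧
    ∀ q ∈ S, p.2 (q : ZMod p.1) = (c q : ℂ)}

/-- `L(s,χ)` has at most two zeros in the real interval `(0,1)`, counted with multiplicity: the
multiplicities at the points of any finite subset of `(0,1)` add up to at most two. -/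
def AtMostTwo (p : Σ N : ℕ, DirichletCharacter ℂ N) : Prop :=
  ∃ _ : NeZero p.1, ∀ A : Finset ℝ, (∀ σ ∈ A, 0 < σ ∧ σ < 1) →
    ∑ σ ∈ A, analyticOrderNatAt (DirichletCharacter.LFunction p.2) (σ : ℂ) ≤ 2

/-- **Theorem.** Let `S` be a finite set of primes, `c p ∈ {0, 1, -1}` for `p ∈ S` and
`s ∈ {1, -1}`. The class of the primitive quadratic characters `χ` with `χ(p) = c p` for `p ∈ S`
and `χ(-1) = s` has at least `κ X` members of conductor at most `X`, with some `κ > 0`, and for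
all large `X`, for at least 98.9 percent of them `L(s,χ)` has at most two zeros in `(0,1)`,
counted with multiplicity. -/
theorem result (S : Finset ℕ) (hS : ∀ p ∈ S, p.Prime) (c : ℕ → ℤ)
    (hc : ∀ p ∈ S, c p = 0 ∨ c p = 1 ∨ c p = -1) (s : ℤ) (hs : s = 1 ∨ s = -1) :
    (∀ X : ℕ, (Class S c s X).Finite) ∧
    (∃ κ : ℝ, 0 < κ ∧ ∃ X0 : ℕ, ∀ X : ℕ, X0 ≤ X →
      κ * (X : ℝ) ≤ ((Class S c s X).ncard : ℝ)) ∧
    (∃ X0 : ℕ, ∀ X : ℕ, X0 ≤ X →
      (989 / 1000 : ℝ) * ((Class S c s X).ncard : ℝ) ≤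
        ((Class S c s X ∩ {p | AtMostTwo p}).ncard : ℝ)) := by
  obtain ⟨h1, ⟨κ, N1, hκ, h2⟩, -⟩ := Pool.Agent.W161.LF.mainA S hS c hc s hs
  have e1 : ∀ X : ℕ, Class S c s X = Pool.Agent.H306R2.RG.LnkC.RPC ∩
      (Pool.Agent.W161.LF.CL S c s ∩ {p | p.1 ≤ X}) := by
    intro X
    ext p
    simp only [Class, Pool.Agent.H306R2.RG.LnkC.RPC, Pool.Agent.W161.LF.CL, Set.mem_inter_iff,
      Set.mem_ofPred_eq]
    tauto
  have hfin : ∀ X : ℕ, (Class S c s X).Finite := fun X => by rw [e1]; exact h1 X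
  obtain ⟨N, hN⟩ := Pool.Agent.NH9.AS.two_final S hS c hc s
  refine ⟨hfin, ⟨κ, hκ, N1, fun X hX => ?_⟩, ⟨N, fun X hX => ?_⟩⟩
  · rw [e1]; exact h2 X hX
  · have h3 := hN X hX
    have e2 : Class S c s X ∩ {p | ¬ AtMostTwo p} =
        Pool.Agent.H306R2.RG.LnkC.RPC ∩ ((Pool.Agent.W161.LF.CL S c s ∩ {p | p.1 ≤ X}) ∩
          {p | ¬ Pool.Agent.NH9.AS.AtMost 2 p}) := by
      rw [e1, Set.inter_assoc]
      rfl
    rw [← e2, ← e1] at h3
    have h4 : (Class S c s X ∩ {p | AtMostTwo p}) ∪ (Class S c s X ∩ {p | ¬ AtMostTwo p}) =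
        Class S c s X := by
      ext p
      simp only [Set.mem_union, Set.mem_inter_iff, Set.mem_ofPred_eq]
      tauto
    have h5 := Set.ncard_union_le (Class S c s X ∩ {p | AtMostTwo p})
      (Class S c s X ∩ {p | ¬ AtMostTwo p})
    rw [h4] at h5
    have h6 : ((Class S c s X).ncard : ℝ) ≤ ((Class S c s X ∩ {p | AtMostTwo p}).ncard : ℝ) +
        ((Class S c s X ∩ {p | ¬ AtMostTwo p}).ncard : ℝ) := by exact_mod_cast h5
    linarith

end Pool.Agent.Results.MP_0016c7_nt.AtMostTwoZeros
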