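import Mathlib
import Pool.Agent.NH9.Far

set_option autoImplicit false

/-!
# Explicit repulsion of the real zeros of quadratic Dirichlet L-functions from the edges

For every `R > 0` and every class of real primitive characters with prescribed values at finitely
many primes and prescribed parity, the proportion of the characters for which `L(s,χ)` fails to be
positive at some real `s` in `(0,1)` at distance at least `R / log X` from `1/2` is asymptotically at
most `bound R = (3√2/32) R (sinh R - R) / (cosh R - cosh (R/2))²`. For instance `bound 5 < 0.0099`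
and `bound 8 < 0.00074`; for large `R` it is about `0.27 R exp (-R)`.
-/

namespace Pool.Agent.Results.MP_0016c7_nt.ExplicitRepulsion

/-- The pairs `(N, χ)` with `1 ≤ N ≤ X` and `χ` a nontrivial primitive quadratic Dirichlet
character modulo `N` such that `χ(-1) = s` and `χ(p) = c p` for all `p ∈ S`. -/
def Class (S : Finset ℕ) (c : ℕ → ℤ) (s : ℤ) (X : ℕ) : Set (Σ N : ℕ, DirichletCharacter ℂ N) :=
  {p | p.1 ≠ 0 ∧ p.1 ≤ X ∧ p.2.IsPrimitive ∧ p.2 ^ 2 = 1 ∧ p.2 ≠ 1 ∧ p.2 (-1) = (s : ℂ) ∧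
    ∀ q ∈ S, p.2 (q : ZMod p.1) = (c q : ℂ)}

/-- `L(σ,χ)` is real and positive at all real `0 < σ < 1` with `|σ - 1/2| ≥ r`. -/
def PositiveAway (r : ℝ) (p : Σ N : ℕ, DirichletCharacter ℂ N) : Prop :=
  ∃ _ : NeZero p.1, ∀ σ : ℝ, 0 < σ → σ < 1 → r ≤ |σ - 1 / 2| →
    (DirichletCharacter.LFunction p.2 (σ : ℂ)).im = 0 ∧
    0 < (DirichletCharacter.LFunction p.2 (σ : ℂ)).re

/-- The bound for the proportion of exceptions. -/
noncomputable def bound (R : ℝ) : ℝ :=
  3 * Real.sqrt 2 / 32 * (R * (Real.sinh R - R) / (Real.cosh R - Real.cosh (R / 2)) ^ 2)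

/-- **Theorem.** Let `S` be a finite set of primes, `c p ∈ {0, 1, -1}` for `p ∈ S` and
`s ∈ {1, -1}`. The class of the primitive quadratic characters `χ` with `χ(p) = c p` for `p ∈ S`
and `χ(-1) = s` has at least `κ X` members of conductor at most `X`, with some `κ > 0`, and for
every `R > 0`, every `ε > 0` and all large `X`, all but a proportion `bound R + ε` of them satisfy
`L(σ,χ) > 0` for all `0 < σ < 1` with `|σ - 1/2| ≥ R / log X`. -/
theorem result (S : Finset ℕ) (hS : ∀ p ∈ S, p.Prime) (c : ℕ → ℤ)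
    (hc : ∀ p ∈ S, c p = 0 ∨ c p = 1 ∨ c p = -1) (s : ℤ) (hs : s = 1 ∨ s = -1) :
    (∀ X : ℕ, (Class S c s X).Finite) ∧
    (∃ κ : ℝ, 0 < κ ∧ ∃ X0 : ℕ, ∀ X : ℕ, X0 ≤ X →
      κ * (X : ℝ) ≤ ((Class S c s X).ncard : ℝ)) ∧
    (∀ R ε : ℝ, 0 < R → 0 < ε → ∃ X0 : ℕ, ∀ X : ℕ, X0 ≤ X →
      ((Class S c s X ∩ {p | ¬ PositiveAway (R / Real.log X) p}).ncard : ℝ) ≤
        (bound R + ε) * ((Class S c s X).ncard : ℝ)) := by
  obtain ⟨h1, ⟨κ, N1, hκ, h2⟩, -⟩ := Pool.Agent.W161.LF.mainA S hS c hc s hs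
  have e1 : ∀ X : ℕ, Class S c s X = Pool.Agent.H306R2.RG.LnkC.RPC ∩
      (Pool.Agent.W161.LF.CL S c s ∩ {p | p.1 ≤ X}) := by
    intro X
    ext p
    simp only [Class, Pool.Agent.H306R2.RG.LnkC.RPC, Pool.Agent.W161.LF.CL, Set.mem_inter_iff,
      Set.mem_ofPred_eq]
    tauto
  refine ⟨fun X => ?_, ⟨κ, hκ, N1, fun X hX => ?_⟩, fun R ε hR hε => ?_⟩
  · rw [e1]; exact h1 X
  · rw [e1]; exact h2 X hX
  · have hJ : Pool.Agent.NH9.CF.Jr R < bound R + ε := by
      have e : Pool.Agent.NH9.CF.Jr R = bound R := by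
        unfold Pool.Agent.NH9.CF.Jr Pool.Agent.NH9.CF.κ0 bound
        rw [mul_comm (8 : ℝ), ← div_div]
        ring
      rw [e]
      linarith
    obtain ⟨N, hN⟩ := Pool.Agent.NH9.AS.repulsion S hS c hc s hR hJ
    refine ⟨N, fun X hX => ?_⟩
    have h3 := hN X hX
    have e2 : Class S c s X ∩ {p | ¬ PositiveAway (R / Real.log X) p} =
        Pool.Agent.H306R2.RG.LnkC.RPC ∩ ((Pool.Agent.W161.LF.CL S c s ∩ {p | p.1 ≤ X}) ∩
          {p | ¬ Pool.Agent.NH9.AS.PosFar (R / Real.log X) p}) := by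
      rw [e1, Set.inter_assoc]
      rfl
    rw [e2, e1]
    exact h3

end Pool.Agent.Results.MP_0016c7_nt.ExplicitRepulsion
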