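import Mathlib
import Pool.Agent.NH9.Chn7

set_option autoImplicit false

/-!
# The average number of zeros in `(0,1)` of the quadratic Dirichlet L-functions is at most 0.333

Zeros are counted with multiplicity, and the average is over the real primitive characters of
conductor at most `X`, with prescribed values at finitely many primes and prescribed parity. The
main step is an explicit bound, for every `k ≥ 2`, for the proportion of the L-functions with more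
than `2k` zeros in `(0,1)`.
-/

namespace Pool.Agent.Results.MP_0016c7_nt.MeanRealZeros

/-- The pairs `(N, χ)` with `1 ≤ N ≤ X` and `χ` a nontrivial primitive quadratic Dirichlet
character modulo `N` such that `χ(-1) = s` and `χ(p) = c p` for all `p ∈ S`. -/
def Class (S : Finset ℕ) (c : ℕ → ℤ) (s : ℤ) (X : ℕ) : Set (Σ N : ℕ, DirichletCharacter ℂ N) :=
  {p | p.1 ≠ 0 ∧ p.1 ≤ X ∧ p.2.IsPrimitive ∧ p.2 ^ 2 = 1 ∧ p.2 ≠ 1 ∧ p.2 (-1) = (s : ℂ) ∧
    ∀ q ∈ S, p.2 (q : ZMod p.1) = (c q : ℂ)}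

/-- The number of zeros of `L(s,χ)` in the real interval `(0,1)`, counted with multiplicity (the
sum, over the real numbers `σ` with `0 < σ < 1`, of the order of vanishing at `σ`). -/
noncomputable def zeroCount (p : Σ N : ℕ, DirichletCharacter ℂ N) : ℕ :=
  if h : p.1 = 0 then 0 else
    haveI : NeZero p.1 := ⟨h⟩
    ∑ᶠ σ ∈ Set.Ioo (0 : ℝ) 1, analyticOrderNatAt (DirichletCharacter.LFunction p.2) (σ : ℂ)

/-- **Theorem.** Let `S` be a finite set of primes, `c p ∈ {0, 1, -1}` for `p ∈ S` and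
`s ∈ {1, -1}`. The class of the primitive quadratic characters `χ` with `χ(p) = c p` for `p ∈ S`
and `χ(-1) = s` has at least `κ X` members of conductor at most `X`, with some `κ > 0`; each of
their L-functions has finitely many zeros in `(0,1)`, and for all large `X` the average number of
these zeros, with multiplicity, is at most `0.333`. For every `k ≥ 2` and `ε > 0` and all large
`X`, the proportion of the members whose L-function has more than `2k` zeros in `(0,1)`, with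
multiplicity, is at most `1 / (k (17 k + 20)) + ε`. -/
theorem result (S : Finset ℕ) (hS : ∀ p ∈ S, p.Prime) (c : ℕ → ℤ)
    (hc : ∀ p ∈ S, c p = 0 ∨ c p = 1 ∨ c p = -1) (s : ℤ) (hs : s = 1 ∨ s = -1) :
    (∀ X : ℕ, (Class S c s X).Finite) ∧
    (∃ κ : ℝ, 0 < κ ∧ ∃ X0 : ℕ, ∀ X : ℕ, X0 ≤ X →
      κ * (X : ℝ) ≤ ((Class S c s X).ncard : ℝ)) ∧
    (∀ (X : ℕ), ∀ p ∈ Class S c s X, ∃ _ : NeZero p.1,
      {σ : ℝ | 0 < σ ∧ σ < 1 ∧ DirichletCharacter.LFunction p.2 (σ : ℂ) = 0}.Finite) ∧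
    (∃ X0 : ℕ, ∀ X : ℕ, X0 ≤ X →
      ((∑ᶠ p ∈ Class S c s X, zeroCount p : ℕ) : ℝ) ≤
        (333 / 1000 : ℝ) * ((Class S c s X).ncard : ℝ)) ∧
    (∀ k : ℕ, 2 ≤ k → ∀ ε : ℝ, 0 < ε → ∃ X0 : ℕ, ∀ X : ℕ, X0 ≤ X →
      ((Class S c s X ∩ {p | 2 * k < zeroCount p}).ncard : ℝ) ≤
        (1 / ((k : ℝ) * (17 * (k : ℝ) + 20)) + ε) * ((Class S c s X).ncard : ℝ)) := by
  obtain ⟨h1, ⟨κ, N1, hκ, h2⟩, -⟩ := Pool.Agent.W161.LF.mainA S hS c hc s hs
  have e1 : ∀ X : ℕ, Class S c s X = Pool.Agent.H306R2.RG.LnkC.RPC ∩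
      (Pool.Agent.W161.LF.CL S c s ∩ {p | p.1 ≤ X}) := by
    intro X
    ext p
    simp only [Class, Pool.Agent.H306R2.RG.LnkC.RPC, Pool.Agent.W161.LF.CL, Set.mem_inter_iff,
      Set.mem_ofPred_eq]
    tauto
  have hfin : ∀ X : ℕ, (Class S c s X).Finite := fun X => by rw [e1]; exact h1 X
  obtain ⟨N, hN⟩ := Pool.Agent.NH9.AS.mean_final S hS c hc s hs
  refine ⟨hfin, ⟨κ, hκ, N1, fun X hX => ?_⟩, fun X p hp => ?_, ⟨N, fun X hX => ?_⟩,
    fun k hk ε hε => ?_⟩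
  · rw [e1]; exact h2 X hX
  · obtain ⟨N, χ⟩ := p
    have hN : NeZero N := ⟨hp.1⟩
    have hχ : χ ≠ 1 := hp.2.2.2.2.1
    refine ⟨hN, ?_⟩
    refine (Pool.Agent.NH9.AS.zeros_fin (Pool.Agent.NH9.AS.lf_diff hχ)
      (Pool.Agent.NH9.AS.lf_two hχ)).subset ?_
    rintro σ ⟨h0, h1, h2⟩
    exact ⟨⟨h0, h1⟩, h2⟩
  · have h3 := hN X hX
    rw [← e1] at h3
    exact h3
  · obtain ⟨N, hN⟩ := Pool.Agent.NH9.AS.chain_class S hS c hc s hs hk hε
    refine ⟨N, fun X hX => ?_⟩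
    have h3 := hN X hX
    have e2 : Class S c s X ∩ {p | 2 * k < zeroCount p} =
        Pool.Agent.H306R2.RG.LnkC.RPC ∩ ((Pool.Agent.W161.LF.CL S c s ∩ {p | p.1 ≤ X}) ∩
          {p | ¬ Pool.Agent.NH9.AS.AtMost (2 * k) p}) := by
      rw [e1, Set.inter_assoc]
      ext p
      constructor
      · rintro ⟨hp1, hp2, hp3⟩
        exact ⟨hp1, hp2, (Pool.Agent.NH9.AS.zcp_most hp1 (2 * k)).1 hp3⟩
      · rintro ⟨hp1, hp2, hp3⟩
        exact ⟨hp1, hp2, (Pool.Agent.NH9.AS.zcp_most hp1 (2 * k)).2 hp3⟩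
    rw [← e2, ← e1] at h3
    exact h3

end Pool.Agent.Results.MP_0016c7_nt.MeanRealZeros
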