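import Mathlib
import Pool.Agent.NH9.NoZ

set_option autoImplicit false

/-!
# At least 87.3 percent of the quadratic Dirichlet L-functions have no zero in `(0,1)`

This holds in every class of real primitive characters with prescribed values at finitely many
primes and prescribed parity.
-/

namespace Pool.Agent.Results.MP_0016c7_nt.NoRealZeros

/-- The pairs `(N, χ)` with `1 ≤ N ≤ X` and `χ` a nontrivial primitive quadratic Dirichlet
character modulo `N` such that `χ(-1) = s` and `χ(p) = c p` for all `p ∈ S`. -/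
def Class (S : Finset ℕ) (c : ℕ → ℤ) (s : ℤ) (X : ℕ) : Set (Σ N : ℕ, DirichletCharacter ℂ N) :=
  {p | p.1 ≠ 0 ∧ p.1 ≤ X ∧ p.2.IsPrimitive ∧ p.2 ^ 2 = 1 ∧ p.2 ≠ 1 ∧ p.2 (-1) = (s : ℂ) ∧
    ∀ q ∈ S, p.2 (q : ZMod p.1) = (c q : ℂ)}

/-- `L(σ,χ)` is real and positive for every real `σ` with `0 < σ < 1`. -/
def Positive (p : Σ N : ℕ, DirichletCharacter ℂ N) : Prop :=
  ∃ _ : NeZero p.1, ∀ σ : ℝ, 0 < σ → σ < 1 →
    (DirichletCharacter.LFunction p.2 (σ : ℂ)).im = 0 ∧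
    0 < (DirichletCharacter.LFunction p.2 (σ : ℂ)).re

/-- **Theorem.** Let `S` be a finite set of primes, `c p ∈ {0, 1, -1}` for `p ∈ S` and
`s ∈ {1, -1}`. The class of the primitive quadratic characters `χ` with `χ(p) = c p` for `p ∈ S`
and `χ(-1) = s` has at least `κ X` members of conductor at most `X`, with some `κ > 0`, and for
all large `X` at least 87.3 percent of them satisfy `L(σ,χ) > 0` for all `0 < σ < 1`. -/
theorem result (S : Finset ℕ) (hS : ∀ p ∈ S, p.Prime) (c : ℕ → ℤ)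
    (hc : ∀ p ∈ S, c p = 0 ∨ c p = 1 ∨ c p = -1) (s : ℤ) (hs : s = 1 ∨ s = -1) :
    (∀ X : ℕ, (Class S c s X).Finite) ∧
    (∃ κ : ℝ, 0 < κ ∧ ∃ X0 : ℕ, ∀ X : ℕ, X0 ≤ X →
      κ * (X : ℝ) ≤ ((Class S c s X).ncard : ℝ)) ∧
    (∃ X0 : ℕ, ∀ X : ℕ, X0 ≤ X →
      (873 / 1000 : ℝ) * ((Class S c s X).ncard : ℝ) ≤
        ((Class S c s X ∩ {p | Positive p}).ncard : ℝ)) := by
  obtain ⟨h1, ⟨κ, N1, hκ, h2⟩, -⟩ := Pool.Agent.W161.LF.mainA S hS c hc s hs
  have e1 : ∀ X : ℕ, Class S c s X = Pool.Agent.H306R2.RG.LnkC.RPC ∩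
      (Pool.Agent.W161.LF.CL S c s ∩ {p | p.1 ≤ X}) := by
    intro X
    ext p
    simp only [Class, Pool.Agent.H306R2.RG.LnkC.RPC, Pool.Agent.W161.LF.CL, Set.mem_inter_iff,
      Set.mem_ofPred_eq]
    tauto
  have hfin : ∀ X : ℕ, (Class S c s X).Finite := fun X => by rw [e1]; exact h1 X
  obtain ⟨N, hN⟩ := Pool.Agent.NH9.AS.no_final S hS c hc s
  refine ⟨hfin, ⟨κ, hκ, N1, fun X hX => ?_⟩, ⟨N, fun X hX => ?_⟩⟩
  · rw [e1]; exact h2 X hX
  · have h3 := hN X hX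
    have e2 : Class S c s X ∩ {p | ¬ Positive p} ⊆
        Pool.Agent.H306R2.RG.LnkC.RPC ∩ ((Pool.Agent.W161.LF.CL S c s ∩ {p | p.1 ≤ X}) ∩
          {p | ¬ Pool.Agent.NH9.AS.PosFar 0 p}) := by
      rintro p ⟨hp1, hp2⟩
      rw [e1] at hp1
      refine ⟨hp1.1, hp1.2, fun hp3 => hp2 ?_⟩
      obtain ⟨hN, hp4⟩ := hp3
      exact ⟨hN, fun σ h0 h1 => hp4 σ h0 h1 (abs_nonneg _)⟩
    have h3' : ((Class S c s X ∩ {p | ¬ Positive p}).ncard : ℝ) ≤
        127 / 1000 * ((Class S c s X).ncard : ℝ) := by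
      have h4 : (Class S c s X ∩ {p | ¬ Positive p}).ncard ≤
          (Pool.Agent.H306R2.RG.LnkC.RPC ∩ ((Pool.Agent.W161.LF.CL S c s ∩ {p | p.1 ≤ X}) ∩
          {p | ¬ Pool.Agent.NH9.AS.PosFar 0 p})).ncard := by
        refine Set.ncard_le_ncard e2 ?_
        rw [← Set.inter_assoc, ← e1]
        exact (hfin X).subset Set.inter_subset_left
      have h5 : ((Class S c s X ∩ {p | ¬ Positive p}).ncard : ℝ) ≤
          ((Pool.Agent.H306R2.RG.LnkC.RPC ∩ ((Pool.Agent.W161.LF.CL S c s ∩ {p | p.1 ≤ X}) ∩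
          {p | ¬ Pool.Agent.NH9.AS.PosFar 0 p})).ncard : ℝ) := by exact_mod_cast h4
      rw [e1]
      rw [e1] at h5
      exact h5.trans h3
    have h4 : (Class S c s X ∩ {p | Positive p}) ∪ (Class S c s X ∩ {p | ¬ Positive p}) =
        Class S c s X := by
      ext p
      simp only [Set.mem_union, Set.mem_inter_iff, Set.mem_ofPred_eq]
      tauto
    have h5 := Set.ncard_union_le (Class S c s X ∩ {p | Positive p})
      (Class S c s X ∩ {p | ¬ Positive p})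
    rw [h4] at h5
    have h6 : ((Class S c s X).ncard : ℝ) ≤ ((Class S c s X ∩ {p | Positive p}).ncard : ℝ) +
        ((Class S c s X ∩ {p | ¬ Positive p}).ncard : ℝ) := by exact_mod_cast h5
    linarith

end Pool.Agent.Results.MP_0016c7_nt.NoRealZeros
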